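import Mathlib

set_option autoImplicit false

namespace Pool.Agent.Results.MP_810de6_an.ExtMBasis

open scoped ENNReal

/-- `E` has an extended M-basis: a family `(x i, f i)` over some index set `I` with
`f j (x i) = δ_{ij}`, the closed linear span of the `x i` is `E`, and the `f i` are total. -/
def HasExtendedMBasis (𝕜 : Type) [RCLike 𝕜] (E : Type) [NormedAddCommGroup E] [NormedSpace 𝕜 E] :
    Prop :=
  ∃ (I : Type) (x : I → E) (f : I → (E →L[𝕜] 𝕜)),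
    (∀ i, f i (x i) = 1) ∧ (∀ i j, i ≠ j → f j (x i) = 0) ∧
    closure (Submodule.span 𝕜 (Set.range x) : Set E) = Set.univ ∧
    (∀ y : E, (∀ i, f i y = 0) → y = 0)

/-- `E` has a closed subspace linearly homeomorphic to the space of bounded sequences. -/
def ContainsLinf (𝕜 : Type) [RCLike 𝕜] (E : Type) [NormedAddCommGroup E] [NormedSpace 𝕜 E] :
    Prop :=
  ∃ G : Submodule 𝕜 E, IsClosed (G : Set E) ∧
    Nonempty (G ≃L[𝕜] lp (fun _ : ℕ => 𝕜) ∞)

section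

variable (𝕜 : Type) [RCLike 𝕜]

/-- bounded sequences -/
abbrev Li := lp (fun _ : ℕ => 𝕜) ∞

/-- the index set: pairs of an element of the unit ball and a natural number -/
abbrev Gam := {x : Li 𝕜 // ‖x‖ ≤ 1} × ℕ

open Classical in
/-- truncation of a bounded sequence, removing the first `k` coordinates -/
noncomputable def tailSeq (x : Li 𝕜) (k : ℕ) : Li 𝕜 :=
  ⟨fun n => if n < k then 0 else x n, by
    refine memℓp_infty ⟨‖x‖, ?_⟩
    rintro _ ⟨n, rfl⟩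
    simp only
    split_ifs
    · simp
    · exact lp.norm_apply_le_norm ENNReal.top_ne_zero x n⟩

/-- the vectors `x_γ` -/
noncomputable def vec (γ : Gam 𝕜) : Li 𝕜 := (γ.2 : 𝕜) • tailSeq 𝕜 γ.1.1 γ.2

lemma vec_apply (γ : Gam 𝕜) (n : ℕ) :
    vec 𝕜 γ n = if n < γ.2 then 0 else (γ.2 : 𝕜) * γ.1.1 n := by
  show (γ.2 : 𝕜) • (if n < γ.2 then (0:𝕜) else γ.1.1 n) = _
  split_ifs <;> simp

lemma vec_bound (γ : Gam 𝕜) (n : ℕ) : ‖vec 𝕜 γ n‖ ≤ n := by
  rw [vec_apply]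
  split_ifs with h
  · simp
  · push Not at h
    rw [norm_mul]
    have h1 : ‖γ.1.1 n‖ ≤ 1 := le_trans (lp.norm_apply_le_norm ENNReal.top_ne_zero _ n) γ.1.2
    have h2 : ‖(γ.2 : 𝕜)‖ = γ.2 := by simp
    rw [h2]
    have h3 : (γ.2 : ℝ) ≤ n := by exact_mod_cast h
    calc (γ.2 : ℝ) * ‖γ.1.1 n‖ ≤ γ.2 * 1 := by gcongr
      _ ≤ n := by linarith

/-- summable families over `Gam` -/
abbrev Lo := lp (fun _ : Gam 𝕜 => 𝕜) 1

variable {𝕜}

lemma summ (a : Lo 𝕜) : Summable (fun γ => ‖a γ‖) := by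
  have := (lp.memℓp a).summable (by norm_num : 0 < (1:ℝ≥0∞).toReal)
  simpa using this

lemma norm_Lo (a : Lo 𝕜) : ‖a‖ = ∑' γ, ‖a γ‖ := by
  have := lp.norm_eq_tsum_rpow (by norm_num : 0 < (1:ℝ≥0∞).toReal) a
  simpa using this

lemma summ2 (n : ℕ) (a : Lo 𝕜) : Summable (fun γ => vec 𝕜 γ n * a γ) := by
  refine Summable.of_norm_bounded (g := fun γ => (n:ℝ) * ‖a γ‖) ((summ a).mul_left _) ?_
  intro γ
  rw [norm_mul]
  exact mul_le_mul_of_nonneg_right (vec_bound 𝕜 γ n) (norm_nonneg _)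

/-- the pairing of an element of `Lo` with the family `vec γ n` -/
noncomputable def pair (n : ℕ) : Lo 𝕜 →L[𝕜] 𝕜 :=
  LinearMap.mkContinuous
    { toFun := fun a => ∑' γ, vec 𝕜 γ n * a γ
      map_add' := by
        intro a b
        rw [← (summ2 n a).tsum_add (summ2 n b)]
        apply tsum_congr
        intro γ
        rw [lp.coeFn_add, Pi.add_apply, mul_add]
      map_smul' := by
        intro c a
        rw [RingHom.id_apply, smul_eq_mul, ← tsum_mul_left]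
        apply tsum_congr
        intro γ
        rw [lp.coeFn_smul, Pi.smul_apply, smul_eq_mul]
        ring } n (by
      intro a
      show ‖∑' γ, vec 𝕜 γ n * a γ‖ ≤ n * ‖a‖
      rw [norm_Lo, ← tsum_mul_left]
      refine tsum_of_norm_bounded ((summ a).mul_left _).hasSum ?_
      intro γ
      rw [norm_mul]
      exact mul_le_mul_of_nonneg_right (vec_bound 𝕜 γ n) (norm_nonneg _))

lemma pair_apply (n : ℕ) (a : Lo 𝕜) : pair n a = ∑' γ, vec 𝕜 γ n * a γ := rfl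

open Classical in
lemma pair_single (n : ℕ) (γ : Gam 𝕜) : pair n (lp.single 1 γ (1:𝕜)) = vec 𝕜 γ n := by
  rw [pair_apply, tsum_eq_single γ]
  · rw [lp.single_apply_self, mul_one]
  · intro δ hδ
    rw [lp.single_apply_ne _ _ _ hδ, mul_zero]

/-- coordinate functionals on bounded sequences -/
noncomputable def evi (n : ℕ) : Li 𝕜 →L[𝕜] 𝕜 :=
  lp.evalCLM 𝕜 (fun _ : ℕ => 𝕜) ∞ n

/-- coordinate functionals on summable families -/
noncomputable def evo (γ : Gam 𝕜) : Lo 𝕜 →L[𝕜] 𝕜 :=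
  lp.evalCLM 𝕜 (fun _ : Gam 𝕜 => 𝕜) 1 γ


open Classical in
/-- the vectors of the system -/
noncomputable def sysx : ℕ ⊕ Gam 𝕜 → Li 𝕜 × Lo 𝕜
  | Sum.inl n => (lp.single ∞ n (1:𝕜), 0)
  | Sum.inr γ => (vec 𝕜 γ, lp.single 1 γ (1:𝕜))

/-- the functionals of the system -/
noncomputable def sysf : ℕ ⊕ Gam 𝕜 → ((Li 𝕜 × Lo 𝕜) →L[𝕜] 𝕜)
  | Sum.inl n => (evi n).comp (ContinuousLinearMap.fst 𝕜 _ _) -
      (pair n).comp (ContinuousLinearMap.snd 𝕜 _ _)
  | Sum.inr γ => (evo γ).comp (ContinuousLinearMap.snd 𝕜 _ _)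

lemma sysf_inl (n : ℕ) (y : Li 𝕜 × Lo 𝕜) : sysf (Sum.inl n) y = y.1 n - pair n y.2 := rfl
lemma sysf_inr (γ : Gam 𝕜) (y : Li 𝕜 × Lo 𝕜) : sysf (Sum.inr γ) y = y.2 γ := rfl

open Classical in
lemma self_one (i : ℕ ⊕ Gam 𝕜) : sysf i (sysx i) = 1 := by
  rcases i with n | γ
  · rw [sysf_inl]
    show (lp.single ∞ n (1:𝕜) : Li 𝕜) n - pair n 0 = 1
    rw [lp.single_apply_self, map_zero, sub_zero]
  · rw [sysf_inr]
    exact lp.single_apply_self _ _ _

open Classical in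
lemma ne_zero (i j : ℕ ⊕ Gam 𝕜) (hij : i ≠ j) : sysf j (sysx i) = 0 := by
  rcases j with n | γ
  · rw [sysf_inl]
    rcases i with m | δ
    · show (lp.single ∞ m (1:𝕜) : Li 𝕜) n - pair n 0 = 0
      have : n ≠ m := fun h => hij (by rw [h])
      rw [lp.single_apply_ne _ _ _ this, map_zero, sub_zero]
    · show (vec 𝕜 δ) n - pair n (lp.single 1 δ (1:𝕜)) = 0
      rw [pair_single, sub_self]
  · rw [sysf_inr]
    rcases i with m | δ
    · rfl
    · have : γ ≠ δ := fun h => hij (by rw [h])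
      exact lp.single_apply_ne _ _ _ this

lemma total (y : Li 𝕜 × Lo 𝕜) (h : ∀ i, sysf i y = 0) : y = 0 := by
  have h2 : y.2 = 0 := by
    apply lp.ext
    funext γ
    exact h (Sum.inr γ)
  have h1 : y.1 = 0 := by
    apply lp.ext
    funext n
    have := h (Sum.inl n)
    rw [sysf_inl, h2, map_zero, sub_zero] at this
    exact this
  exact Prod.ext h1 h2

/-- closed span of the system -/
noncomputable def M : Submodule 𝕜 (Li 𝕜 × Lo 𝕜) :=
  (Submodule.span 𝕜 (Set.range (sysx (𝕜 := 𝕜)))).topologicalClosure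

lemma M_closed : IsClosed ((M : Submodule 𝕜 (Li 𝕜 × Lo 𝕜)) : Set (Li 𝕜 × Lo 𝕜)) :=
  Submodule.isClosed_topologicalClosure _

lemma sysx_mem (i : ℕ ⊕ Gam 𝕜) : sysx i ∈ (M : Submodule 𝕜 (Li 𝕜 × Lo 𝕜)) :=
  Submodule.le_topologicalClosure _ (Submodule.subset_span ⟨i, rfl⟩)

lemma trunc_mem (x : Li 𝕜) (k : ℕ) :
    ((x - tailSeq 𝕜 x k, 0) : Li 𝕜 × Lo 𝕜) ∈ (M : Submodule 𝕜 (Li 𝕜 × Lo 𝕜)) := by
  have : ((x - tailSeq 𝕜 x k, 0) : Li 𝕜 × Lo 𝕜) =
      ∑ n ∈ Finset.range k, (x n) • sysx (Sum.inl n) := by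
    refine Prod.ext ?_ ?_
    · rw [Prod.fst_sum]
      apply lp.ext
      funext m
      rw [lp.coeFn_sum, Finset.sum_apply]
      have e : ∀ n ∈ Finset.range k, ((x n • sysx (Sum.inl n : ℕ ⊕ Gam 𝕜)).1 : Li 𝕜) m
          = if m = n then x n else 0 := by
        intro n _
        show x n • ((lp.single ∞ n (1:𝕜) : Li 𝕜) m) = _
        split_ifs with h
        · rw [h, lp.single_apply_self]; simp
        · rw [lp.single_apply_ne _ _ _ h]; simp
      rw [Finset.sum_congr rfl e, Finset.sum_ite_eq]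
      show x m - (if m < k then (0:𝕜) else x m) = _
      simp only [Finset.mem_range]
      split_ifs <;> simp
    · rw [Prod.snd_sum]
      symm
      apply Finset.sum_eq_zero
      intro n _
      show x n • (0 : Lo 𝕜) = 0
      simp
  rw [this]
  exact Submodule.sum_mem _ (fun n _ => Submodule.smul_mem _ _ (sysx_mem _))

lemma ball_mem (x : Li 𝕜) (hx : ‖x‖ ≤ 1) :
    ((x, 0) : Li 𝕜 × Lo 𝕜) ∈ (M : Submodule 𝕜 (Li 𝕜 × Lo 𝕜)) := by
  classical
  let u : ℕ → Li 𝕜 × Lo 𝕜 := fun k =>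
    (x, ((k:𝕜) + 1)⁻¹ • (lp.single 1 ((⟨x, hx⟩, k+1) : Gam 𝕜) (1:𝕜) : Lo 𝕜))
  have hu : ∀ k, u k ∈ (M : Submodule 𝕜 (Li 𝕜 × Lo 𝕜)) := by
    intro k
    have hk : ((k:𝕜) + 1) ≠ 0 := by exact_mod_cast Nat.succ_ne_zero k
    have e : u k = (x - tailSeq 𝕜 x (k+1), 0) +
        ((k:𝕜) + 1)⁻¹ • sysx (Sum.inr ((⟨x, hx⟩, k+1) : Gam 𝕜)) := by
      refine Prod.ext ?_ ?_
      · show x = (x - tailSeq 𝕜 x (k+1)) + ((k:𝕜) + 1)⁻¹ • ((((k+1 : ℕ)) : 𝕜) • tailSeq 𝕜 x (k+1))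
        rw [smul_smul]
        push_cast
        rw [inv_mul_cancel₀ hk, one_smul, sub_add_cancel]
      · show _ = 0 + _
        rw [zero_add]; rfl
    rw [e]
    exact Submodule.add_mem _ (trunc_mem x _) (Submodule.smul_mem _ _ (sysx_mem _))
  refine M_closed.mem_of_tendsto (f := u) (b := Filter.atTop) ?_ (Filter.Eventually.of_forall hu)
  refine Filter.Tendsto.prodMk_nhds tendsto_const_nhds ?_
  rw [tendsto_zero_iff_norm_tendsto_zero]
  have e : ∀ k : ℕ, ‖((k:𝕜) + 1)⁻¹ • (lp.single 1 ((⟨x, hx⟩, k+1) : Gam 𝕜) (1:𝕜) : Lo 𝕜)‖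
      = 1 / ((k:ℝ) + 1) := by
    intro k
    rw [norm_smul, lp.norm_single (by norm_num), norm_one, mul_one, norm_inv]
    have : ‖(k:𝕜) + 1‖ = (k:ℝ) + 1 := by
      have h : ((k:𝕜) + 1) = ((k+1 : ℕ) : 𝕜) := by push_cast; rfl
      rw [h, RCLike.norm_natCast]
      push_cast
      rfl
    rw [this, one_div]
  simp_rw [e]
  exact tendsto_one_div_add_atTop_nhds_zero_nat

lemma all_left (y : Li 𝕜) : ((y, 0) : Li 𝕜 × Lo 𝕜) ∈ (M : Submodule 𝕜 (Li 𝕜 × Lo 𝕜)) := by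
  by_cases hy : y = 0
  · rw [hy]; exact Submodule.zero_mem _
  · have hn : ‖y‖ ≠ 0 := norm_ne_zero_iff.mpr hy
    have h1 : ‖((‖y‖ : 𝕜))⁻¹ • y‖ ≤ 1 := by
      rw [norm_smul, norm_inv, RCLike.norm_ofReal, abs_of_nonneg (norm_nonneg _),
        inv_mul_cancel₀ hn]
    have h2 := Submodule.smul_mem _ (‖y‖ : 𝕜) (ball_mem _ h1)
    have h3 : (‖y‖ : 𝕜) • (((‖y‖ : 𝕜)⁻¹ • y, 0) : Li 𝕜 × Lo 𝕜) = (y, 0) := by
      refine Prod.ext ?_ ?_
      · show (‖y‖ : 𝕜) • ((‖y‖ : 𝕜)⁻¹ • y) = y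
        rw [smul_smul, mul_inv_cancel₀ (by exact_mod_cast hn), one_smul]
      · show (‖y‖ : 𝕜) • (0 : Lo 𝕜) = 0
        simp
    rwa [h3] at h2

lemma all_right (a : Lo 𝕜) : ((0, a) : Li 𝕜 × Lo 𝕜) ∈ (M : Submodule 𝕜 (Li 𝕜 × Lo 𝕜)) := by
  classical
  have hs := lp.hasSum_single (p := 1) (by norm_num) a
  have hcont : Continuous (fun b : Lo 𝕜 => ((0, b) : Li 𝕜 × Lo 𝕜)) := by fun_prop
  have ht := (hcont.tendsto a).comp hs
  refine M_closed.mem_of_tendsto ht (Filter.Eventually.of_forall ?_)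
  intro s
  have e : ((fun b : Lo 𝕜 => ((0, b) : Li 𝕜 × Lo 𝕜)) ∘
      fun s : Finset (Gam 𝕜) => ∑ γ ∈ s, (lp.single 1 γ (a γ) : Lo 𝕜)) s
      = ∑ γ ∈ s, (a γ) • (sysx (Sum.inr γ) - ((vec 𝕜 γ, 0) : Li 𝕜 × Lo 𝕜)) := by
    show ((0, ∑ γ ∈ s, (lp.single 1 γ (a γ) : Lo 𝕜)) : Li 𝕜 × Lo 𝕜) = _
    refine Prod.ext ?_ ?_
    · rw [Prod.fst_sum]
      symm
      apply Finset.sum_eq_zero
      intro γ _
      show (a γ) • (vec 𝕜 γ - vec 𝕜 γ) = 0
      rw [sub_self, smul_zero]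
    · rw [Prod.snd_sum]
      apply Finset.sum_congr rfl
      intro γ _
      show (lp.single 1 γ (a γ) : Lo 𝕜) = (a γ) • ((lp.single 1 γ (1:𝕜) : Lo 𝕜) - 0)
      rw [sub_zero, ← lp.single_smul, smul_eq_mul, mul_one]
  rw [e]
  exact Submodule.sum_mem _ (fun γ _ => Submodule.smul_mem _ _
    (Submodule.sub_mem _ (sysx_mem _) (all_left _)))

end

/-- There is a Banach space (over the reals, and over the complex numbers) which has an extended
M-basis and contains a closed subspace linearly homeomorphic to the space of bounded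
sequences. -/
theorem result (𝕜 : Type) [RCLike 𝕜] :
    ∃ (E : Type) (_ : NormedAddCommGroup E) (_ : NormedSpace 𝕜 E),
      CompleteSpace E ∧ HasExtendedMBasis 𝕜 E ∧ ContainsLinf 𝕜 E := by
  refine ⟨Li 𝕜 × Lo 𝕜, inferInstance, inferInstance, inferInstance, ?_, ?_⟩
  · refine ⟨ℕ ⊕ Gam 𝕜, sysx, sysf, self_one, ne_zero, ?_, total⟩
    apply Set.eq_univ_of_forall
    rintro ⟨y, a⟩
    have h : ((y, a) : Li 𝕜 × Lo 𝕜) ∈ (M : Submodule 𝕜 (Li 𝕜 × Lo 𝕜)) := by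
      have := Submodule.add_mem _ (all_left y) (all_right a)
      rwa [Prod.mk_add_mk, add_zero, zero_add] at this
    exact h
  · let G : Submodule 𝕜 (Li 𝕜 × Lo 𝕜) := LinearMap.ker (LinearMap.snd 𝕜 (Li 𝕜) (Lo 𝕜))
    refine ⟨G, ?_, ⟨?_⟩⟩
    · exact (isClosed_singleton (x := (0 : Lo 𝕜))).preimage continuous_snd
    · exact
        { toFun := fun g => g.1.1
          invFun := fun y => ⟨(y, 0), rfl⟩
          map_add' := fun _ _ => rfl
          map_smul' := fun _ _ => rfl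
          left_inv := by
            rintro ⟨⟨y, a⟩, h⟩
            have ha : a = 0 := h
            subst ha
            rfl
          right_inv := fun _ => rfl
          continuous_toFun := by fun_prop
          continuous_invFun := by fun_prop }

end Pool.Agent.Results.MP_810de6_an.ExtMBasis
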